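import Pool.Agent.helper88.HT.Spec

/-!
# Row ht:GRO
-/

set_option autoImplicit false

namespace Pool.Agent.helper88.HT

open Pool.Agent.helper38.Neg Pool.Agent.helper55.NT

theorem GRO_lg_pos (n : ℕ) : 1 ≤ lg n := by
  unfold lg
  have : 1 ≤ Nat.log 2 (n + 2) := by
    rw [← Nat.log_pow (b := 2) one_lt_two 1]
    exact Nat.log_mono_right (by omega)
  exact this

theorem GRO_log_le (L : ℕ) (hL : 1 ≤ L) : Real.log L ≤ 2 * (lg L : ℝ) := by
  have h1 : L + 2 < 2 ^ (lg L + 1) := Nat.lt_pow_succ_log_self one_lt_two (L + 2)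
  have h2 : (L : ℝ) ≤ (2 : ℝ) ^ (lg L + 1) := by
    have : L ≤ 2 ^ (lg L + 1) := by omega
    exact_mod_cast this
  have h3 : (0 : ℝ) < L := by exact_mod_cast hL
  have h4 := Real.log_le_log h3 h2
  rw [Real.log_pow] at h4
  have h5 : Real.log 2 ≤ 1 := by
    have := Real.log_two_lt_d9; linarith
  have h6 : (1 : ℝ) ≤ lg L := by exact_mod_cast GRO_lg_pos L
  push_cast at h4
  nlinarith

theorem GRO_real (m L lL c e : ℕ) (hm : 2 ≤ m) (hL : 1 ≤ L) (hlL : 1 ≤ lL)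
    (hlog : Real.log L ≤ 2 * lL)
    (h : (1 / 64 : ℝ) * ((m : ℝ) / Real.log m) ^ ((1 : ℝ) / 4) ≤ c * (L : ℝ) ^ e + 3) :
    (m : ℝ) ≤ ((64 * ((c : ℝ) + 3)) ^ 4 *
      (Real.log (4 * ((64 * ((c : ℝ) + 3)) ^ 4) ^ 2) + 16 * e)) * (L : ℝ) ^ (4 * e) * lL := by
  set D : ℝ := (64 * ((c : ℝ) + 3)) ^ 4 with hD
  have hc : (0 : ℝ) ≤ c := Nat.cast_nonneg c
  have hLr : (1 : ℝ) ≤ L := by exact_mod_cast hL
  have hlr : (1 : ℝ) ≤ lL := by exact_mod_cast hlL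
  have hmr : (2 : ℝ) ≤ m := by exact_mod_cast hm
  have hLe : (1 : ℝ) ≤ (L : ℝ) ^ e := one_le_pow₀ hLr
  have hD1 : 1 ≤ D := one_le_pow₀ (by nlinarith)
  have hlm : 0 < Real.log m := Real.log_pos (by linarith)
  have hq : 0 < (m : ℝ) / Real.log m := div_pos (by linarith) hlm
  have h1 : ((m : ℝ) / Real.log m) ^ ((1 : ℝ) / 4) ≤ 64 * ((c : ℝ) + 3) * (L : ℝ) ^ e := by
    nlinarith
  have h2 : (m : ℝ) / Real.log m ≤ D * (L : ℝ) ^ (4 * e) := by
    have h3 : (((m : ℝ) / Real.log m) ^ ((1 : ℝ) / 4)) ^ 4 ≤ (64 * ((c : ℝ) + 3) * (L : ℝ) ^ e) ^ 4 :=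
      pow_le_pow_left₀ (Real.rpow_nonneg hq.le _) h1 4
    rw [← Real.rpow_natCast, ← Real.rpow_mul hq.le] at h3
    norm_num at h3
    calc (m : ℝ) / Real.log m ≤ (64 * ((c : ℝ) + 3) * (L : ℝ) ^ e) ^ 4 := h3
      _ = D * (L : ℝ) ^ (4 * e) := by rw [hD]; ring
  have h4 : (m : ℝ) ≤ D * (L : ℝ) ^ (4 * e) * Real.log m := (div_le_iff₀ hlm).mp h2
  -- a first bound of `m`
  have hsq : Real.log m ≤ 2 * Real.sqrt m := by
    have h5 := Real.log_le_rpow_div (x := (m : ℝ)) (ε := 1 / 2) (by linarith) (by norm_num)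
    rw [← Real.sqrt_eq_rpow] at h5
    linarith
  have hs0 : 0 < Real.sqrt m := Real.sqrt_pos.mpr (by linarith)
  have hss : Real.sqrt m * Real.sqrt m = m := Real.mul_self_sqrt (by linarith)
  have hDL : 0 < D * (L : ℝ) ^ (4 * e) := by positivity
  have h6 : Real.sqrt m ≤ 2 * (D * (L : ℝ) ^ (4 * e)) := by
    have h7 : Real.sqrt m * Real.sqrt m ≤ (2 * (D * (L : ℝ) ^ (4 * e))) * Real.sqrt m := by
      rw [hss]
      nlinarith
    exact le_of_mul_le_mul_right h7 hs0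
  have h8 : (m : ℝ) ≤ (4 * D ^ 2) * (L : ℝ) ^ (8 * e) := by
    calc (m : ℝ) = Real.sqrt m * Real.sqrt m := hss.symm
      _ ≤ (2 * (D * (L : ℝ) ^ (4 * e))) * (2 * (D * (L : ℝ) ^ (4 * e))) :=
        mul_le_mul h6 h6 hs0.le (by positivity)
      _ = (4 * D ^ 2) * (L : ℝ) ^ (8 * e) := by ring
  have h9 : Real.log m ≤ (Real.log (4 * D ^ 2) + 16 * e) * lL := by
    have h10 := Real.log_le_log (by linarith) h8
    rw [Real.log_mul (by positivity) (by positivity), Real.log_pow] at h10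
    have h11 : 0 ≤ Real.log (4 * D ^ 2) := Real.log_nonneg (by nlinarith)
    have h12 : (0 : ℝ) ≤ e := Nat.cast_nonneg e
    push_cast at h10
    have h13 : 8 * (e : ℝ) * Real.log L ≤ 16 * e * lL := by nlinarith
    nlinarith
  calc (m : ℝ) ≤ D * (L : ℝ) ^ (4 * e) * Real.log m := h4
    _ ≤ D * (L : ℝ) ^ (4 * e) * ((Real.log (4 * D ^ 2) + 16 * e) * lL) :=
      mul_le_mul_of_nonneg_left h9 hDL.le
    _ = _ := by ring

theorem GRO (hLBL : LBL_stmt) : GRO_stmt := by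
  intro b k c e h
  set A : ℝ := (64 * ((c : ℝ) + 3)) ^ 4 *
      (Real.log (4 * ((64 * ((c : ℝ) + 3)) ^ 4) ^ 2) + 16 * e) with hA
  refine ⟨⌈A⌉₊ + 1, ?_⟩
  intro n
  have hL := GRO_lg_pos n
  have hlL := GRO_lg_pos (lg n)
  by_cases hm : min (k n) n < 2
  · have h1 : 1 ≤ (⌈A⌉₊ + 1) * lg n ^ (4 * e) * lg (lg n) := by
      have h2 : 1 ≤ lg n ^ (4 * e) := Nat.one_le_pow _ _ hL
      exact Nat.one_le_iff_ne_zero.mpr (Nat.mul_ne_zero (Nat.mul_ne_zero (by omega) (by omega))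
        (by omega))
    omega
  · rw [not_lt] at hm
    obtain ⟨s, hs, C, o, hC1, hC2⟩ := h n
    have h1 := hLBL b k n s hm C o hC1 hC2
    have h2 : (2 : ℝ) * s + 4 ≤ (2 : ℝ) ^ (c * lg n ^ e + 3) := by
      have h3 : (s : ℝ) ≤ (2 : ℝ) ^ (c * lg n ^ e) := by exact_mod_cast hs
      have h4 : (1 : ℝ) ≤ (2 : ℝ) ^ (c * lg n ^ e) := one_le_pow₀ (by norm_num)
      rw [pow_add]
      nlinarith
    have h5 := h1.trans h2
    rw [← Real.rpow_natCast, Real.rpow_le_rpow_left_iff one_lt_two] at h5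
    push_cast at h5
    have h6 := GRO_real (min (k n) n) (lg n) (lg (lg n)) c e hm hL hlL
      (GRO_log_le (lg n) hL) (by push_cast; exact h5)
    have h7 : ((min (k n) n : ℕ) : ℝ) ≤
        (((⌈A⌉₊ + 1) * lg n ^ (4 * e) * lg (lg n) : ℕ) : ℝ) := by
      refine h6.trans ?_
      push_cast
      have h8 : A ≤ (⌈A⌉₊ : ℝ) + 1 := by
        have := Nat.le_ceil A; linarith
      have h9 : (0 : ℝ) ≤ (lg n : ℝ) ^ (4 * e) := by positivity
      have h10 : (0 : ℝ) ≤ (lg (lg n) : ℝ) := by positivity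
      exact mul_le_mul_of_nonneg_right (mul_le_mul_of_nonneg_right h8 h9) h10
    exact_mod_cast h7

end Pool.Agent.helper88.HT
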